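import Mathlib

set_option autoImplicit false

/-!
# Total positivity of the Gaussian kernel and a Cauchy-Binet formula over finite sets of nodes
-/

namespace Pool.Agent.Q161.TPK

open Matrix Finset

/-! ## The mean value theorem in every column -/

theorem mvt_aux {n : ℕ} (G G' : Fin n → ℝ → ℝ) (hG : ∀ i t, HasDerivAt (G i) (G' i t) t)
    (l u : Fin n → ℝ) (hlu : ∀ j, l j < u j) (s : Finset (Fin n)) :
    ∃ ξ : Fin n → ℝ, (∀ j, l j < ξ j ∧ ξ j < u j) ∧
      (Matrix.of fun i j => G i (u j) - G i (l j)).det =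
        (∏ j ∈ s, (u j - l j)) *
          (Matrix.of fun i j => if j ∈ s then G' i (ξ j) else G i (u j) - G i (l j)).det := by
  classical
  induction s using Finset.induction_on with
  | empty =>
    refine ⟨fun j => (l j + u j) / 2, fun j => ⟨by have := hlu j; linarith, by have := hlu j; linarith⟩, ?_⟩
    simp
  | insert k s hk ih =>
    obtain ⟨ξ, h1, h2⟩ := ih
    set M : Matrix (Fin n) (Fin n) ℝ :=
      Matrix.of fun i j => if j ∈ s then G' i (ξ j) else G i (u j) - G i (l j) with hM
    set h : ℝ → ℝ := fun t => ∑ i, M.adjugate k i * G i t with hh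
    have hd : ∀ t, HasDerivAt h (∑ i, M.adjugate k i * G' i t) t := by
      intro t
      exact HasDerivAt.fun_sum fun i _ => (hG i t).const_mul _
    have hupd : ∀ v : Fin n → ℝ, (M.updateCol k v).det = ∑ i, M.adjugate k i * v i := by
      intro v
      rw [← Matrix.cramer_apply, Matrix.cramer_eq_adjugate_mulVec]
      rfl
    obtain ⟨c, hc, hc'⟩ := exists_hasDerivAt_eq_slope h _ (hlu k)
      (fun t _ => (hd t).continuousAt.continuousWithinAt) (fun t _ => hd t)
    refine ⟨Function.update ξ k c, ?_, ?_⟩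
    · intro j
      by_cases hj : j = k
      · subst hj; simpa using hc
      · simpa [hj] using h1 j
    · rw [h2, Finset.prod_insert hk]
      have e1 : M = M.updateCol k (fun i => G i (u k) - G i (l k)) := by
        ext i j
        by_cases hj : j = k
        · subst hj; simp [hM, hk]
        · simp [hj]
      have e2 : M.det = h (u k) - h (l k) := by
        rw [e1, hupd, hh, ← Finset.sum_sub_distrib]
        exact Finset.sum_congr rfl fun i _ => by ring
      have e3 : (Matrix.of fun i j => if j ∈ insert k s then G' i (Function.update ξ k c j)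
          else G i (u j) - G i (l j)) = M.updateCol k (fun i => G' i c) := by
        ext i j
        by_cases hj : j = k
        · subst hj; simp
        · simp [hM, hj]
      rw [e3, hupd, e2]
      have hpos : 0 < u k - l k := sub_pos.2 (hlu k)
      rw [eq_div_iff hpos.ne'] at hc'
      rw [← hc']
      ring

theorem mvt {n : ℕ} (G G' : Fin n → ℝ → ℝ) (hG : ∀ i t, HasDerivAt (G i) (G' i t) t)
    (l u : Fin n → ℝ) (hlu : ∀ j, l j < u j) :
    ∃ ξ : Fin n → ℝ, (∀ j, l j < ξ j ∧ ξ j < u j) ∧
      (Matrix.of fun i j => G i (u j) - G i (l j)).det =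
        (∏ j, (u j - l j)) * (Matrix.of fun i j => G' i (ξ j)).det := by
  obtain ⟨ξ, h1, h2⟩ := mvt_aux G G' hG l u hlu Finset.univ
  exact ⟨ξ, h1, by simpa using h2⟩

/-! ## Total positivity of `exp (x y)` -/

theorem exp_tp (n : ℕ) : ∀ a b : Fin n → ℝ, StrictMono a → StrictMono b →
    0 < (Matrix.of fun i j => Real.exp (a i * b j)).det := by
  induction n with
  | zero => intro a b _ _; simp
  | succ n ih =>
    intro a b ha hb
    set A : Matrix (Fin (n + 1)) (Fin (n + 1)) ℝ :=
      Matrix.of fun i j => Real.exp ((a i - a 0) * b j) with hA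
    have h1 : (Matrix.of fun i j => Real.exp (a i * b j)) =
        Matrix.of fun i j => Real.exp (a 0 * b j) * A i j := by
      ext i j
      simp only [Matrix.of_apply, hA]
      rw [← Real.exp_add]
      ring_nf
    rw [h1, Matrix.det_mul_row]
    refine mul_pos (Finset.prod_pos fun j _ => Real.exp_pos _) ?_
    set B : Matrix (Fin (n + 1)) (Fin (n + 1)) ℝ :=
      Matrix.of fun i j => Fin.cases (A i 0) (fun k : Fin n => A i k.succ - A i k.castSucc) j with hB
    have hAB : A.det = B.det := by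
      apply Matrix.det_eq_of_forall_col_eq_smul_add_pred (fun _ => 1)
      · intro i; simp [hB]
      · intro i j; simp [hB]
    have hB00 : B 0 0 = 1 := by simp [hB, hA]
    have hB0 : ∀ k : Fin n, B 0 k.succ = 0 := by intro k; simp [hB, hA]
    rw [hAB, Matrix.det_succ_row_zero, Fin.sum_univ_succ]
    rw [Finset.sum_eq_zero (fun k _ => by rw [hB0 k]; ring)]
    simp only [Fin.val_zero, pow_zero, one_mul, hB00, add_zero]
    have hsub : B.submatrix Fin.succ (Fin.succAbove 0) =
        Matrix.of fun i j : Fin n => Real.exp ((a i.succ - a 0) * b j.succ) -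
          Real.exp ((a i.succ - a 0) * b j.castSucc) := by
      ext i j
      simp [hB, hA]
    rw [hsub]
    obtain ⟨ξ, hξ, he⟩ := mvt (fun i t => Real.exp ((a i.succ - a 0) * t))
      (fun i t => (a i.succ - a 0) * Real.exp ((a i.succ - a 0) * t))
      (fun i t => by
        have := ((hasDerivAt_id t).const_mul (a i.succ - a 0)).exp
        simp only [id, mul_one] at this
        convert this using 1
        ring)
      (fun j => b j.castSucc) (fun j => b j.succ) (fun j => hb (Fin.castSucc_lt_succ (i := j)))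
    rw [he]
    have e4 : (Matrix.of fun i j : Fin n => (a i.succ - a 0) * Real.exp ((a i.succ - a 0) * ξ j)) =
        Matrix.of fun i j => (fun i : Fin n => a i.succ - a 0) i *
          (Matrix.of fun i j : Fin n => Real.exp ((a i.succ - a 0) * ξ j)) i j := by
      ext i j; simp
    rw [e4, Matrix.det_mul_column]
    refine mul_pos (Finset.prod_pos fun j _ => sub_pos.2 (hb (Fin.castSucc_lt_succ (i := j))))
      (mul_pos (Finset.prod_pos fun j _ => sub_pos.2 (ha (Fin.succ_pos j))) ?_)
    apply ih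
    · intro i j hij
      have := ha (Fin.succ_lt_succ_iff.2 hij)
      simp only
      linarith
    · intro i j hij
      have h3 : b i.succ ≤ b j.castSucc := hb.monotone (by
        rw [Fin.le_def]; simp only [Fin.val_succ, Fin.val_castSucc]; exact hij)
      have := (hξ i).2
      have := (hξ j).1
      linarith

/-- the Gaussian kernel -/
noncomputable def g (ε : ℝ) (x s : ℝ) : ℝ := Real.exp (-(x - s) ^ 2 / ε)

theorem g_pos (ε x s : ℝ) : 0 < g ε x s := Real.exp_pos _

theorem g_le_one {ε : ℝ} (hε : 0 < ε) (x s : ℝ) : g ε x s ≤ 1 := by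
  unfold g
  rw [Real.exp_le_one_iff]
  have : 0 ≤ (x - s) ^ 2 / ε := by positivity
  rw [neg_div]
  linarith

theorem g_comm (ε x s : ℝ) : g ε x s = g ε s x := by
  unfold g
  congr 2
  ring

theorem g_tp {ε : ℝ} (hε : 0 < ε) {n : ℕ} (x s : Fin n → ℝ) (hx : StrictMono x) (hs : StrictMono s) :
    0 < (Matrix.of fun i j => g ε (x i) (s j)).det := by
  have h1 : (Matrix.of fun i j => g ε (x i) (s j)) =
      Matrix.of fun i j => (fun i => Real.exp (-(x i) ^ 2 / ε)) i *
        (Matrix.of fun i j => Real.exp (-(s j) ^ 2 / ε) *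
          (Matrix.of fun i j => Real.exp (x i * (2 / ε * s j))) i j) i j := by
    ext i j
    simp only [Matrix.of_apply, g]
    rw [← Real.exp_add, ← Real.exp_add]
    congr 1
    field_simp
    ring
  rw [h1, Matrix.det_mul_column, Matrix.det_mul_row]
  refine mul_pos (Finset.prod_pos fun _ _ => Real.exp_pos _)
    (mul_pos (Finset.prod_pos fun _ _ => Real.exp_pos _) ?_)
  apply exp_tp n x (fun j => 2 / ε * s j) hx
  intro i j hij
  exact mul_lt_mul_of_pos_left (hs hij) (by positivity)

/-! ## Cauchy-Binet over a finite set of nodes -/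

theorem cbf_aux {n : ℕ} (A : Finset ℝ) (p : Fin n → ℝ → ℝ) (r : ℝ → Fin n → ℝ) :
    (Matrix.of fun i j => ∑ a ∈ A, p i a * r a j).det =
      ∑ f ∈ Fintype.piFinset (fun _ : Fin n => A),
        (Matrix.of fun i j => p i (f j)).det * ∏ i, r (f i) i := by
  rw [det_apply']
  have h1 : ∀ σ : Equiv.Perm (Fin n), ∏ i, (Matrix.of fun i j => ∑ a ∈ A, p i a * r a j) (σ i) i =
      ∑ f ∈ Fintype.piFinset (fun _ : Fin n => A), (∏ i, p (σ i) (f i)) * ∏ i, r (f i) i := by
    intro σ
    simp only [Matrix.of_apply]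
    rw [Finset.prod_univ_sum]
    apply Finset.sum_congr rfl
    intro a _
    rw [Finset.prod_mul_distrib]
  simp only [h1, Finset.mul_sum]
  rw [Finset.sum_comm]
  apply Finset.sum_congr rfl
  intro a _
  rw [det_apply', Finset.sum_mul]
  apply Finset.sum_congr rfl
  intro σ _
  simp only [Matrix.of_apply]
  ring

theorem cbf {n : ℕ} (A : Finset ℝ) (p : Fin n → ℝ → ℝ) (r : ℝ → Fin n → ℝ) :
    (Matrix.of fun i j => ∑ a ∈ A, p i a * r a j).det = (n.factorial : ℝ)⁻¹ *
      ∑ f ∈ Fintype.piFinset (fun _ : Fin n => A),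
        (Matrix.of fun i j => p i (f j)).det * (Matrix.of fun i j => r (f i) j).det := by
  have h1 : ∀ τ : Equiv.Perm (Fin n), (Matrix.of fun i j => ∑ a ∈ A, p i a * r a j).det =
      ∑ f ∈ Fintype.piFinset (fun _ : Fin n => A), (Matrix.of fun i j => p i (f j)).det *
        (((Equiv.Perm.sign τ : ℤ) : ℝ) * ∏ i, r (f (τ i)) i) := by
    intro τ
    rw [cbf_aux]
    refine Finset.sum_equiv (Equiv.arrowCongr τ (Equiv.refl ℝ)) ?_ ?_
    · intro f
      simp only [Fintype.mem_piFinset, Equiv.arrowCongr_apply, Function.comp_apply, Equiv.refl_apply]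
      constructor
      · intro h i; exact h _
      · intro h i; simpa using h (τ i)
    · intro f _
      simp only [Equiv.arrowCongr_apply, Function.comp_apply, Equiv.refl_apply,
        Equiv.symm_apply_apply]
      have e2 : (Matrix.of fun i j => p i (f (τ.symm j))) =
          (Matrix.of fun i j => p i (f j)).submatrix id τ.symm := rfl
      rw [e2, Matrix.det_permute']
      have h : ((Equiv.Perm.sign τ : ℤ) : ℝ) * ((Equiv.Perm.sign τ : ℤ) : ℝ) = 1 := by
        rcases Int.units_eq_one_or (Equiv.Perm.sign τ) with h | h <;> rw [h] <;> norm_num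
      have h' : Equiv.Perm.sign τ.symm = Equiv.Perm.sign τ := Equiv.Perm.sign_symm τ
      rw [h']
      linear_combination (-(Matrix.of fun i j => p i (f j)).det * ∏ i, r (f i) i) * h
  have h2 : (n.factorial : ℝ) * (Matrix.of fun i j => ∑ a ∈ A, p i a * r a j).det =
      ∑ f ∈ Fintype.piFinset (fun _ : Fin n => A),
        (Matrix.of fun i j => p i (f j)).det * (Matrix.of fun i j => r (f i) j).det := by
    calc (n.factorial : ℝ) * (Matrix.of fun i j => ∑ a ∈ A, p i a * r a j).det =
        ∑ τ : Equiv.Perm (Fin n), (Matrix.of fun i j => ∑ a ∈ A, p i a * r a j).det := by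
          rw [Finset.sum_const, Finset.card_univ, Fintype.card_perm, Fintype.card_fin, nsmul_eq_mul]
      _ = ∑ τ : Equiv.Perm (Fin n), ∑ f ∈ Fintype.piFinset (fun _ : Fin n => A),
          (Matrix.of fun i j => p i (f j)).det *
            (((Equiv.Perm.sign τ : ℤ) : ℝ) * ∏ i, r (f (τ i)) i) :=
          Finset.sum_congr rfl (fun τ _ => h1 τ)
      _ = _ := by
          rw [Finset.sum_comm]
          apply Finset.sum_congr rfl
          intro a _
          rw [← Finset.mul_sum, det_apply' (Matrix.of fun i j => r (a i) j)]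
          rfl
  have h3 : (n.factorial : ℝ) ≠ 0 := by positivity
  rw [← h2]
  field_simp

/-- The term of the double Cauchy-Binet expansion. -/
noncomputable def tm {n : ℕ} (p : Fin n → ℝ → ℝ) (L : ℝ → ℝ → ℝ) (q : ℝ → Fin n → ℝ)
    (f h : Fin n → ℝ) : ℝ :=
  (Matrix.of fun i j => p i (f j)).det *
    ((Matrix.of fun i j => L (f i) (h j)).det * (Matrix.of fun i j => q (h i) j).det)

theorem cbf2 {n : ℕ} (A B : Finset ℝ) (p : Fin n → ℝ → ℝ) (L : ℝ → ℝ → ℝ) (q : ℝ → Fin n → ℝ) :
    (Matrix.of fun i j => ∑ a ∈ A, ∑ b ∈ B, p i a * L a b * q b j).det =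
      (n.factorial : ℝ)⁻¹ * ((n.factorial : ℝ)⁻¹ *
      ∑ f ∈ Fintype.piFinset (fun _ : Fin n => A), ∑ h ∈ Fintype.piFinset (fun _ : Fin n => B),
        tm p L q f h) := by
  have h1 : (Matrix.of fun i j => ∑ a ∈ A, ∑ b ∈ B, p i a * L a b * q b j) =
      Matrix.of fun i j => ∑ a ∈ A, p i a * (fun a j => ∑ b ∈ B, L a b * q b j) a j := by
    ext i j
    simp only [Matrix.of_apply, Finset.mul_sum]
    refine Finset.sum_congr rfl fun a _ => Finset.sum_congr rfl fun b _ => by ring
  rw [h1, cbf]
  congr 1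
  rw [Finset.mul_sum]
  refine Finset.sum_congr rfl fun f _ => ?_
  have h2 := cbf B (fun i b => L (f i) b) q
  rw [h2, Finset.mul_sum, Finset.mul_sum, Finset.mul_sum]
  refine Finset.sum_congr rfl fun h _ => ?_
  unfold tm
  ring

theorem tm_sort {n : ℕ} (p : Fin n → ℝ → ℝ) (L : ℝ → ℝ → ℝ) (q : ℝ → Fin n → ℝ)
    (f h : Fin n → ℝ) (σ τ : Equiv.Perm (Fin n)) : tm p L q f h = tm p L q (f ∘ σ) (h ∘ τ) := by
  unfold tm
  have e1 : (Matrix.of fun i j => p i ((f ∘ σ) j)) = (Matrix.of fun i j => p i (f j)).submatrix id σ := rfl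
  have e2 : (Matrix.of fun i j => L ((f ∘ σ) i) ((h ∘ τ) j)) =
      ((Matrix.of fun i j => L (f i) (h j)).submatrix σ id).submatrix id τ := rfl
  have e3 : (Matrix.of fun i j => q ((h ∘ τ) i) j) = (Matrix.of fun i j => q (h i) j).submatrix τ id := rfl
  rw [e1, e2, e3, Matrix.det_permute', Matrix.det_permute', Matrix.det_permute, Matrix.det_permute]
  have h1 : ((Equiv.Perm.sign σ : ℤ) : ℝ) * ((Equiv.Perm.sign σ : ℤ) : ℝ) = 1 := by
    rcases Int.units_eq_one_or (Equiv.Perm.sign σ) with h | h <;> rw [h] <;> norm_num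
  have h2 : ((Equiv.Perm.sign τ : ℤ) : ℝ) * ((Equiv.Perm.sign τ : ℤ) : ℝ) = 1 := by
    rcases Int.units_eq_one_or (Equiv.Perm.sign τ) with h | h <;> rw [h] <;> norm_num
  set a := (Matrix.of fun i j => p i (f j)).det
  set b := (Matrix.of fun i j => L (f i) (h j)).det
  set c := (Matrix.of fun i j => q (h i) j).det
  set s := ((Equiv.Perm.sign σ : ℤ) : ℝ)
  set t := ((Equiv.Perm.sign τ : ℤ) : ℝ)
  calc a * (b * c) = (s * s) * (t * t) * (a * (b * c)) := by rw [h1, h2]; ring
    _ = _ := by ring

/-- nonnegative minors on a pair of sets of nodes -/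
def TNOn (A B : Set ℝ) (L : ℝ → ℝ → ℝ) : Prop :=
  ∀ (n : ℕ) (f h : Fin n → ℝ), StrictMono f → StrictMono h → (∀ i, f i ∈ A) → (∀ i, h i ∈ B) →
    0 ≤ (Matrix.of fun i j => L (f i) (h j)).det

theorem tm_nonneg {ε : ℝ} (hε : 0 < ε) {n : ℕ} (x y : Fin n → ℝ) (hx : StrictMono x)
    (hy : StrictMono y) (L : ℝ → ℝ → ℝ) (A B : Set ℝ) (hL : TNOn A B L) (f h : Fin n → ℝ)
    (hf : ∀ i, f i ∈ A) (hh : ∀ i, h i ∈ B) :
    0 ≤ tm (fun i a => g ε (x i) a) L (fun b j => g ε b (y j)) f h := by
  by_cases h1 : Function.Injective f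
  · by_cases h2 : Function.Injective h
    · rw [tm_sort _ _ _ f h (Tuple.sort f) (Tuple.sort h)]
      have hm : StrictMono (f ∘ Tuple.sort f) :=
        (Tuple.monotone_sort f).strictMono_of_injective (h1.comp (Tuple.sort f).injective)
      have hm' : StrictMono (h ∘ Tuple.sort h) :=
        (Tuple.monotone_sort h).strictMono_of_injective (h2.comp (Tuple.sort h).injective)
      unfold tm
      exact mul_nonneg (g_tp hε x _ hx hm).le (mul_nonneg
        (hL n _ _ hm hm' (fun i => hf _) (fun i => hh _)) (g_tp hε _ y hm' hy).le)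
    · have h' : ∃ i j, h i = h j ∧ i ≠ j := by
        rw [Function.Injective] at h2
        push Not at h2
        exact h2
      obtain ⟨i, j, hij, hne⟩ := h'
      have : (Matrix.of fun i j => g ε (h i) (y j)).det = 0 := by
        apply Matrix.det_zero_of_row_eq hne
        ext l
        simp [hij]
      unfold tm
      rw [this, mul_zero, mul_zero]
  · have h' : ∃ i j, f i = f j ∧ i ≠ j := by
      rw [Function.Injective] at h1
      push Not at h1
      exact h1
    obtain ⟨i, j, hij, hne⟩ := h'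
    have : (Matrix.of fun i j => g ε (x i) (f j)).det = 0 := by
      apply Matrix.det_zero_of_column_eq hne
      intro l
      simp [hij]
    unfold tm
    rw [this, zero_mul]

/-- The sandwich kernel. -/
noncomputable def H (ε : ℝ) (L : ℝ → ℝ → ℝ) (A B : Finset ℝ) (x y : ℝ) : ℝ :=
  ∑ a ∈ A, ∑ b ∈ B, g ε x a * L a b * g ε b y

theorem H_mono {ε : ℝ} (hε : 0 < ε) {n : ℕ} (x y : Fin n → ℝ) (hx : StrictMono x)
    (hy : StrictMono y) (L : ℝ → ℝ → ℝ) (A B A' B' : Finset ℝ) (hA : A ⊆ A') (hB : B ⊆ B')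
    (hL : TNOn A' B' L) :
    (Matrix.of fun i j => H ε L A B (x i) (y j)).det ≤
      (Matrix.of fun i j => H ε L A' B' (x i) (y j)).det := by
  unfold H
  rw [cbf2 A B (fun i a => g ε (x i) a) L (fun b j => g ε b (y j)),
    cbf2 A' B' (fun i a => g ε (x i) a) L (fun b j => g ε b (y j))]
  apply mul_le_mul_of_nonneg_left _ (by positivity)
  apply mul_le_mul_of_nonneg_left _ (by positivity)
  have hnn : ∀ f ∈ Fintype.piFinset (fun _ : Fin n => A'),
      ∀ h ∈ Fintype.piFinset (fun _ : Fin n => B'),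
      0 ≤ tm (fun i a => g ε (x i) a) L (fun b j => g ε b (y j)) f h := by
    intro f hf h hh
    rw [Fintype.mem_piFinset] at hf hh
    exact tm_nonneg hε x y hx hy L A' B' hL f h hf hh
  calc _ ≤ ∑ f ∈ Fintype.piFinset (fun _ : Fin n => A),
        ∑ h ∈ Fintype.piFinset (fun _ : Fin n => B'),
        tm (fun i a => g ε (x i) a) L (fun b j => g ε b (y j)) f h := by
        apply Finset.sum_le_sum
        intro f hf
        apply Finset.sum_le_sum_of_subset_of_nonneg
        · exact Fintype.piFinset_subset _ _ fun _ => hB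
        · intro h hh _
          exact hnn f (Fintype.piFinset_subset _ _ (fun _ => hA) hf) h hh
    _ ≤ _ := by
        apply Finset.sum_le_sum_of_subset_of_nonneg
        · exact Fintype.piFinset_subset _ _ fun _ => hA
        · intro f hf _
          exact Finset.sum_nonneg fun h hh => hnn f hf h hh

theorem H_pos {ε : ℝ} (hε : 0 < ε) {n : ℕ} (x y : Fin n → ℝ) (hx : StrictMono x)
    (hy : StrictMono y) (L : ℝ → ℝ → ℝ) (A B : Finset ℝ)
    (hL : TNOn A B L) (f h : Fin n → ℝ) (hf : ∀ i, f i ∈ A) (hh : ∀ i, h i ∈ B)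
    (hf' : StrictMono f) (hh' : StrictMono h) (hp : 0 < (Matrix.of fun i j => L (f i) (h j)).det) :
    0 < (Matrix.of fun i j => H ε L A B (x i) (y j)).det := by
  unfold H
  rw [cbf2 A B (fun i a => g ε (x i) a) L (fun b j => g ε b (y j))]
  refine mul_pos (by positivity) (mul_pos (by positivity) ?_)
  have hnn : ∀ f ∈ Fintype.piFinset (fun _ : Fin n => A),
      ∀ h ∈ Fintype.piFinset (fun _ : Fin n => B),
      0 ≤ tm (fun i a => g ε (x i) a) L (fun b j => g ε b (y j)) f h := by
    intro f hf h hh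
    rw [Fintype.mem_piFinset] at hf hh
    exact tm_nonneg hε x y hx hy L A B hL f h hf hh
  refine Finset.sum_pos' (fun f hf => Finset.sum_nonneg fun h hh => hnn f hf h hh)
    ⟨f, Fintype.mem_piFinset.2 hf, Finset.sum_pos' (fun h hh => hnn f (Fintype.mem_piFinset.2 hf) h hh)
      ⟨h, Fintype.mem_piFinset.2 hh, ?_⟩⟩
  unfold tm
  exact mul_pos (g_tp hε x _ hx hf') (mul_pos hp (g_tp hε _ y hh' hy))

end Pool.Agent.Q161.TPK
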