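import Mathlib
import Pool.Agent.Q161.TPK.Basic

set_option autoImplicit false

/-!
# The regularised kernel: an infinite diagonal tail of nodes far to the left
-/

namespace Pool.Agent.Q161.TPK

open Matrix Finset Filter Topology

/-- The middle kernel: `K` on the nodes right of `-R`, a positive diagonal on the nodes left of it. -/
noncomputable def Lk (K : ℝ → ℝ → ℝ) (R : ℝ) (a b : ℝ) : ℝ :=
  if -R ≤ a ∧ -R ≤ b then K a b else if a = b then Real.exp (a + R) else 0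

theorem Lk_tn (K : ℝ → ℝ → ℝ) (R : ℝ) (S T : Set ℝ) (hK : TNOn S T K) :
    TNOn (S ∪ Set.Iio (-R)) (T ∪ Set.Iio (-R)) (Lk K R) := by
  intro n
  induction n with
  | zero => intro f h _ _ _ _; simp
  | succ n ih =>
    intro f h hf hh hfS hhT
    rcases lt_or_ge (f 0) (-R) with h0 | h0
    · rcases lt_trichotomy (h 0) (f 0) with h1 | h1 | h1
      · refine le_of_eq (Matrix.det_eq_zero_of_column_eq_zero 0 fun i => ?_).symm
        have h2 : f 0 ≤ f i := hf.monotone (Fin.zero_le i)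
        simp only [Matrix.of_apply, Lk]
        rw [if_neg (by intro h3; linarith [h3.2]), if_neg (by intro h3; linarith)]
      · rw [Matrix.det_succ_row_zero, Fin.sum_univ_succ]
        rw [Finset.sum_eq_zero (fun k _ => by
          have h2 : h 0 < h k.succ := hh (Fin.succ_pos k)
          simp only [Matrix.of_apply, Lk]
          rw [if_neg (by intro h3; linarith [h3.1]), if_neg (by intro h3; linarith)]
          ring)]
        simp only [Fin.val_zero, pow_zero, one_mul, add_zero]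
        refine mul_nonneg ?_ ?_
        · simp only [Matrix.of_apply, Lk]
          rw [if_neg (by intro h3; linarith [h3.1]), if_pos h1.symm]
          positivity
        · have := ih (fun i => f i.succ) (fun i => h i.succ)
            (fun i j hij => hf (Fin.succ_lt_succ_iff.2 hij))
            (fun i j hij => hh (Fin.succ_lt_succ_iff.2 hij)) (fun i => hfS _) (fun i => hhT _)
          have e : (Matrix.of fun i j => Lk K R (f i) (h j)).submatrix Fin.succ (Fin.succAbove 0) =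
              Matrix.of fun i j => Lk K R (f i.succ) (h j.succ) := by
            ext i j
            simp
          rw [e]
          exact this
      · refine le_of_eq (Matrix.det_eq_zero_of_row_eq_zero 0 fun i => ?_).symm
        have h2 : h 0 ≤ h i := hh.monotone (Fin.zero_le i)
        simp only [Matrix.of_apply, Lk]
        rw [if_neg (by intro h3; linarith [h3.1]), if_neg (by intro h3; linarith)]
    · rcases lt_or_ge (h 0) (-R) with h1 | h1
      · refine le_of_eq (Matrix.det_eq_zero_of_column_eq_zero 0 fun i => ?_).symm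
        have h2 : f 0 ≤ f i := hf.monotone (Fin.zero_le i)
        simp only [Matrix.of_apply, Lk]
        rw [if_neg (by intro h3; linarith [h3.2]), if_neg (by intro h3; linarith)]
      · have hfi : ∀ i, -R ≤ f i := fun i => h0.trans (hf.monotone (Fin.zero_le i))
        have hhi : ∀ i, -R ≤ h i := fun i => h1.trans (hh.monotone (Fin.zero_le i))
        have := hK (n + 1) f h hf hh
          (fun i => (hfS i).resolve_right (fun h3 => absurd (hfi i) (not_le.2 h3)))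
          (fun i => (hhT i).resolve_right (fun h3 => absurd (hhi i) (not_le.2 h3)))
        convert this using 3
        ext i j
        simp only [Lk]
        rw [if_pos ⟨hfi i, hhi j⟩]

/-- the far nodes -/
noncomputable def sg (R : ℝ) (k : ℕ) : ℝ := -R - k - 1

theorem sg_inj (R : ℝ) : Function.Injective (sg R) := by
  intro a b hab
  unfold sg at hab
  exact_mod_cast (by linarith : (a : ℝ) = b)

theorem sg_lt (R : ℝ) (k : ℕ) : sg R k < -R := by
  unfold sg
  have : (0 : ℝ) ≤ k := Nat.cast_nonneg k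
  linarith

/-- the node set with `M` far nodes -/
noncomputable def nd (R : ℝ) (S : Finset ℝ) (M : ℕ) : Finset ℝ := S ∪ (Finset.range M).image (sg R)

theorem nd_mono (R : ℝ) (S : Finset ℝ) {M N : ℕ} (h : M ≤ N) : nd R S M ⊆ nd R S N := by
  unfold nd
  exact Finset.union_subset_union_right (Finset.image_subset_image (Finset.range_mono h))

theorem nd_sub (R : ℝ) (S : Finset ℝ) (M : ℕ) : (nd R S M : Set ℝ) ⊆ (S : Set ℝ) ∪ Set.Iio (-R) := by
  intro a ha
  simp only [nd, Finset.coe_union, Finset.coe_image, Set.mem_union, Finset.mem_coe, Set.mem_image,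
    Finset.mem_range] at ha
  rcases ha with ha | ⟨k, _, rfl⟩
  · exact Or.inl ha
  · exact Or.inr (sg_lt R k)

theorem nd_disj (R : ℝ) (S : Finset ℝ) (M : ℕ) (hS : ∀ s ∈ S, -R ≤ s) :
    Disjoint S ((Finset.range M).image (sg R)) := by
  rw [Finset.disjoint_left]
  intro a ha h2
  rw [Finset.mem_image] at h2
  obtain ⟨k, _, rfl⟩ := h2
  exact absurd (hS _ ha) (not_le.2 (sg_lt R k))

/-- the head of the kernel -/
noncomputable def hd (ε : ℝ) (K : ℝ → ℝ → ℝ) (S T : Finset ℝ) (x y : ℝ) : ℝ :=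
  ∑ s ∈ S, ∑ t ∈ T, g ε x s * K s t * g ε t y

/-- the terms of the tail -/
noncomputable def tl (ε R : ℝ) (x y : ℝ) (k : ℕ) : ℝ :=
  Real.exp (-(k : ℝ) - 1) * (g ε x (sg R k) * g ε (sg R k) y)

theorem H_eq (ε : ℝ) (K : ℝ → ℝ → ℝ) (R : ℝ) (S T : Finset ℝ) (hS : ∀ s ∈ S, -R ≤ s)
    (hT : ∀ t ∈ T, -R ≤ t) (M : ℕ) (x y : ℝ) :
    H ε (Lk K R) (nd R S M) (nd R T M) x y =
      hd ε K S T x y + ∑ k ∈ Finset.range M, tl ε R x y k := by
  unfold H
  have h1 : nd R S M = S ∪ (Finset.range M).image (sg R) := rfl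
  have h2 : nd R T M = T ∪ (Finset.range M).image (sg R) := rfl
  rw [h1, Finset.sum_union (nd_disj R S M hS)]
  congr 1
  · unfold hd
    refine Finset.sum_congr rfl fun s hs => ?_
    rw [h2, Finset.sum_union (nd_disj R T M hT)]
    rw [Finset.sum_eq_zero (s := (Finset.range M).image (sg R)) (fun b hb => by
      rw [Finset.mem_image] at hb
      obtain ⟨k, _, rfl⟩ := hb
      unfold Lk
      have h3 := sg_lt R k
      have h4 := hS s hs
      rw [if_neg (by intro h5; linarith [h5.2]), if_neg (by intro h5; linarith)]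
      ring), add_zero]
    refine Finset.sum_congr rfl fun t ht => ?_
    unfold Lk
    rw [if_pos ⟨hS s hs, hT t ht⟩]
  · rw [Finset.sum_image (fun a _ b _ hab => sg_inj R hab)]
    refine Finset.sum_congr rfl fun k hk => ?_
    rw [Finset.sum_eq_single (sg R k)]
    · unfold Lk tl
      have h3 := sg_lt R k
      rw [if_neg (by intro h5; linarith [h5.2]), if_pos rfl]
      have : sg R k + R = -(k : ℝ) - 1 := by unfold sg; ring
      rw [this]
      ring
    · intro b _ hb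
      unfold Lk
      have h3 := sg_lt R k
      rw [if_neg (by intro h5; linarith [h5.1]), if_neg (fun h5 => hb h5.symm)]
      ring
    · intro h3
      exfalso
      apply h3
      rw [h2]
      exact Finset.mem_union_right _ (Finset.mem_image_of_mem _ hk)

theorem tl_nonneg (ε R x y : ℝ) (k : ℕ) : 0 ≤ tl ε R x y k := by
  unfold tl
  have := g_pos ε x (sg R k)
  have := g_pos ε (sg R k) y
  positivity

theorem exp_le_half (k : ℕ) : Real.exp (-(k : ℝ) - 1) ≤ (1 / 2) ^ (k + 1) := by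
  have h1 : Real.exp (-(k : ℝ) - 1) = (Real.exp (-1)) ^ (k + 1) := by
    rw [← Real.exp_nat_mul]
    congr 1
    push_cast
    ring
  rw [h1]
  apply pow_le_pow_left₀ (Real.exp_pos _).le
  rw [Real.exp_neg, one_div]
  apply inv_anti₀ (by norm_num)
  have := Real.add_one_le_exp (1 : ℝ)
  linarith

theorem half_sum : HasSum (fun k : ℕ => ((1 : ℝ) / 2) ^ (k + 1)) 1 := by
  have h := (hasSum_geometric_two).mul_left (1 / 2 : ℝ)
  have e1 : (fun k : ℕ => ((1 : ℝ) / 2) ^ (k + 1)) = fun i : ℕ => (1 / 2 : ℝ) * (1 / 2) ^ i := by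
    funext k
    rw [pow_succ']
  rw [e1]
  have e2 : (1 / 2 : ℝ) * 2 = 1 := by norm_num
  rw [e2] at h
  exact h

theorem tl_le {ε : ℝ} (R x y c : ℝ) (k : ℕ)
    (hc : g ε x (sg R k) * g ε (sg R k) y ≤ c) :
    tl ε R x y k ≤ c * (1 / 2) ^ (k + 1) := by
  unfold tl
  have h1 : 0 ≤ g ε x (sg R k) * g ε (sg R k) y :=
    mul_nonneg (g_pos _ _ _).le (g_pos _ _ _).le
  calc _ ≤ (1 / 2) ^ (k + 1) * c := mul_le_mul (exp_le_half k) hc h1 (by positivity)
    _ = _ := mul_comm _ _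

theorem tl_summable {ε : ℝ} (hε : 0 < ε) (R x y : ℝ) : Summable (tl ε R x y) := by
  apply Summable.of_nonneg_of_le (fun k => tl_nonneg ε R x y k)
    (fun k => tl_le R x y 1 k (mul_le_one₀ (g_le_one hε _ _) (g_pos _ _ _).le (g_le_one hε _ _)))
  exact (half_sum.summable).mul_left 1

/-- the kernel with the full tail -/
noncomputable def Hi (ε : ℝ) (K : ℝ → ℝ → ℝ) (R : ℝ) (S T : Finset ℝ) (x y : ℝ) : ℝ :=
  hd ε K S T x y + ∑' k, tl ε R x y k

theorem Hi_pos {ε : ℝ} (hε : 0 < ε) (K : ℝ → ℝ → ℝ) (R : ℝ) (S T : Finset ℝ)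
    (hS : ∀ s ∈ S, -R ≤ s) (hT : ∀ t ∈ T, -R ≤ t) (hK : TNOn S T K) {n : ℕ} (x y : Fin n → ℝ)
    (hx : StrictMono x) (hy : StrictMono y) :
    0 < (Matrix.of fun i j => Hi ε K R S T (x i) (y j)).det := by
  set D : ℕ → ℝ := fun M =>
    (Matrix.of fun i j => H ε (Lk K R) (nd R S M) (nd R T M) (x i) (y j)).det with hD
  have hTN : ∀ M, TNOn (nd R S M) (nd R T M) (Lk K R) := by
    intro M k f h hf hh hfA hhB
    exact Lk_tn K R S T hK k f h hf hh (fun i => nd_sub R S M (hfA i)) (fun i => nd_sub R T M (hhB i))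
  have hlim : Tendsto D atTop (𝓝 (Matrix.of fun i j => Hi ε K R S T (x i) (y j)).det) := by
    have hc : Continuous fun A : Matrix (Fin n) (Fin n) ℝ => A.det := continuous_id.matrix_det
    refine (hc.tendsto _).comp ?_
    refine tendsto_pi_nhds.2 fun i => tendsto_pi_nhds.2 fun j => ?_
    simp only [Matrix.of_apply]
    have h1 : ∀ M, H ε (Lk K R) (nd R S M) (nd R T M) (x i) (y j) =
        hd ε K S T (x i) (y j) + ∑ k ∈ Finset.range M, tl ε R (x i) (y j) k :=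
      fun M => H_eq ε K R S T hS hT M _ _
    simp only [h1]
    exact ((tl_summable hε R (x i) (y j)).hasSum.tendsto_sum_nat).const_add _
  have hge : D n ≤ (Matrix.of fun i j => Hi ε K R S T (x i) (y j)).det := by
    apply ge_of_tendsto hlim
    filter_upwards [eventually_ge_atTop n] with M hM
    exact H_mono hε x y hx hy _ _ _ _ _ (nd_mono R S hM) (nd_mono R T hM) (hTN M)
  refine lt_of_lt_of_le ?_ hge
  set f : Fin n → ℝ := fun i => -R - n + i with hf
  have hfm : StrictMono f := by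
    intro i j hij
    simp only [hf]
    have : (i : ℝ) < (j : ℝ) := by exact_mod_cast hij
    linarith
  have hfi : ∀ i, f i = sg R (n - 1 - i) := by
    intro i
    have h1 : (i : ℕ) + 1 ≤ n := i.2
    simp only [hf, sg]
    rw [Nat.sub_sub, Nat.cast_sub (by omega)]
    push_cast
    ring
  have hfS : ∀ (S : Finset ℝ) (i : Fin n), f i ∈ (nd R S n : Set ℝ) := by
    intro S i
    rw [Finset.mem_coe, nd, hfi]
    exact Finset.mem_union_right _ (Finset.mem_image_of_mem _ (Finset.mem_range.2 (by have := i.2; omega)))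
  refine H_pos hε x y hx hy _ _ _ (hTN n) f f (hfS S) (hfS T) hfm hfm ?_
  have h2 : (Matrix.of fun i j => Lk K R (f i) (f j)) =
      Matrix.diagonal (fun i => Real.exp (f i + R)) := by
    ext i j
    have h3 : f i < -R := by rw [hfi]; exact sg_lt _ _
    simp only [Matrix.of_apply, Lk]
    rw [if_neg (by intro h5; linarith [h5.1])]
    by_cases hij : i = j
    · subst hij; simp
    · rw [if_neg (fun h5 => hij (hfm.injective h5)), Matrix.diagonal_apply_ne _ hij]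
  rw [h2, Matrix.det_diagonal]
  exact Finset.prod_pos fun i _ => Real.exp_pos _

/-- the normalised kernel -/
noncomputable def Kn (ε : ℝ) (K : ℝ → ℝ → ℝ) (R : ℝ) (S T : Finset ℝ) (x y : ℝ) : ℝ :=
  (∑ s ∈ S, g ε x s)⁻¹ * ((∑ t ∈ T, g ε t y)⁻¹ * Hi ε K R S T x y)

theorem Kn_pos {ε : ℝ} (hε : 0 < ε) (K : ℝ → ℝ → ℝ) (R : ℝ) (S T : Finset ℝ) (hSn : S.Nonempty)
    (hTn : T.Nonempty)
    (hS : ∀ s ∈ S, -R ≤ s) (hT : ∀ t ∈ T, -R ≤ t) (hK : TNOn S T K) {n : ℕ} (x y : Fin n → ℝ)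
    (hx : StrictMono x) (hy : StrictMono y) :
    0 < (Matrix.of fun i j => Kn ε K R S T (x i) (y j)).det := by
  have h1 : (Matrix.of fun i j => Kn ε K R S T (x i) (y j)) =
      Matrix.of fun i j => (fun i => (∑ s ∈ S, g ε (x i) s)⁻¹) i *
        (Matrix.of fun i j => (fun j => (∑ t ∈ T, g ε t (y j))⁻¹) j *
          (Matrix.of fun i j => Hi ε K R S T (x i) (y j)) i j) i j := by
    ext i j
    simp [Kn]
  rw [h1, Matrix.det_mul_column, Matrix.det_mul_row]
  refine mul_pos (Finset.prod_pos fun i _ => inv_pos.2 (Finset.sum_pos (fun s _ => g_pos _ _ _) hSn))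
    (mul_pos (Finset.prod_pos fun i _ => inv_pos.2 (Finset.sum_pos (fun s _ => g_pos _ _ _) hTn)) ?_)
  exact Hi_pos hε K R S T hS hT hK x y hx hy

/-! ## Estimates -/

theorem wt_le {ε : ℝ} (hε : 0 < ε) (S : Finset ℝ) {x δ s s' : ℝ} (hδ : 0 < δ)
    (hs' : s' ∈ S) (h1 : |s' - x| < δ / 2) (h2 : δ ≤ |s - x|) :
    (∑ s ∈ S, g ε x s)⁻¹ * g ε x s ≤ Real.exp (-(3 / 4 * δ ^ 2 / ε)) := by
  have hN : g ε x s' ≤ ∑ s ∈ S, g ε x s :=
    Finset.single_le_sum (f := fun s => g ε x s) (fun s _ => (g_pos _ _ _).le) hs'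
  have hg : Real.exp (-(δ / 2) ^ 2 / ε) ≤ g ε x s' := by
    unfold g
    apply Real.exp_le_exp.2
    apply div_le_div_of_nonneg_right _ hε.le
    have : (x - s') ^ 2 = |s' - x| ^ 2 := by rw [sq_abs]; ring
    rw [this]
    have := abs_nonneg (s' - x)
    nlinarith
  have hg2 : g ε x s ≤ Real.exp (-δ ^ 2 / ε) := by
    unfold g
    apply Real.exp_le_exp.2
    apply div_le_div_of_nonneg_right _ hε.le
    have : (x - s) ^ 2 = |s - x| ^ 2 := by rw [sq_abs]; ring
    rw [this]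
    nlinarith
  have hpos : 0 < ∑ s ∈ S, g ε x s := lt_of_lt_of_le (g_pos _ _ _) hN
  rw [inv_mul_le_iff₀ hpos]
  calc g ε x s ≤ Real.exp (-δ ^ 2 / ε) := hg2
    _ = Real.exp (-(δ / 2) ^ 2 / ε) * Real.exp (-(3 / 4 * δ ^ 2 / ε)) := by
        rw [← Real.exp_add]; congr 1; field_simp; ring
    _ ≤ _ := mul_le_mul_of_nonneg_right (hg.trans hN) (Real.exp_pos _).le

theorem wt_le_one {ε : ℝ} (S : Finset ℝ) {x s : ℝ} (hs : s ∈ S) :
    (∑ s ∈ S, g ε x s)⁻¹ * g ε x s ≤ 1 := by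
  have hN : g ε x s ≤ ∑ s ∈ S, g ε x s :=
    Finset.single_le_sum (f := fun s => g ε x s) (fun s _ => (g_pos _ _ _).le) hs
  have hpos : 0 < ∑ s ∈ S, g ε x s := lt_of_lt_of_le (g_pos _ _ _) hN
  rw [inv_mul_le_iff₀ hpos]
  linarith

theorem head_est {ε : ℝ} (hε : 0 < ε) (K : ℝ → ℝ → ℝ) (S T : Finset ℝ) {x y δ s' t' η κ : ℝ}
    (hδ : 0 < δ) (hη : 0 ≤ η) (hs' : s' ∈ S) (h1 : |s' - x| < δ / 2) (ht' : t' ∈ T)
    (h2 : |t' - y| < δ / 2)
    (hK : ∀ s ∈ S, ∀ t ∈ T, |s - x| < δ → |t - y| < δ → |K s t - κ| ≤ η) :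
    |(∑ s ∈ S, g ε x s)⁻¹ * ((∑ t ∈ T, g ε t y)⁻¹ * hd ε K S T x y) - κ| ≤
      η + Real.exp (-(3 / 4 * δ ^ 2 / ε)) * ((1 + |κ|) * ∑ s ∈ S, ∑ t ∈ T, (1 + |K s t|)) := by
  set N := ∑ s ∈ S, g ε x s with hN
  set N' := ∑ t ∈ T, g ε t y with hN'
  have hNp : 0 < N := Finset.sum_pos (fun s _ => g_pos _ _ _) ⟨s', hs'⟩
  have hNp' : 0 < N' := Finset.sum_pos (fun s _ => g_pos _ _ _) ⟨t', ht'⟩
  set ρ := Real.exp (-(3 / 4 * δ ^ 2 / ε)) with hρ
  have hρ0 : 0 ≤ ρ := (Real.exp_pos _).le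
  have hN'2 : N' = ∑ t ∈ T, g ε y t := Finset.sum_congr rfl fun t _ => g_comm _ _ _
  have hone : ∑ s ∈ S, ∑ t ∈ T, (N⁻¹ * g ε x s) * (N'⁻¹ * g ε t y) = 1 := by
    have : ∀ s ∈ S, ∑ t ∈ T, (N⁻¹ * g ε x s) * (N'⁻¹ * g ε t y) = N⁻¹ * g ε x s := by
      intro s _
      rw [← Finset.mul_sum, ← Finset.mul_sum, ← hN', inv_mul_cancel₀ hNp'.ne', mul_one]
    rw [Finset.sum_congr rfl this, ← Finset.mul_sum, ← hN, inv_mul_cancel₀ hNp.ne']
  have e1 : N⁻¹ * (N'⁻¹ * hd ε K S T x y) - κ =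
      ∑ s ∈ S, ∑ t ∈ T, (N⁻¹ * g ε x s) * (N'⁻¹ * g ε t y) * (K s t - κ) := by
    have h3 : κ = ∑ s ∈ S, ∑ t ∈ T, (N⁻¹ * g ε x s) * (N'⁻¹ * g ε t y) * κ := by
      simp only [← Finset.sum_mul]
      rw [hone, one_mul]
    have h4 : N⁻¹ * (N'⁻¹ * hd ε K S T x y) =
        ∑ s ∈ S, ∑ t ∈ T, (N⁻¹ * g ε x s) * (N'⁻¹ * g ε t y) * K s t := by
      unfold hd
      simp only [Finset.mul_sum]
      refine Finset.sum_congr rfl fun s _ => Finset.sum_congr rfl fun t _ => ?_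
      ring
    rw [h4]
    nth_rewrite 1 [h3]
    rw [← Finset.sum_sub_distrib]
    refine Finset.sum_congr rfl fun s _ => ?_
    rw [← Finset.sum_sub_distrib]
    refine Finset.sum_congr rfl fun t _ => ?_
    ring
  rw [e1]
  have hterm : ∀ s ∈ S, ∀ t ∈ T, |(N⁻¹ * g ε x s) * (N'⁻¹ * g ε t y) * (K s t - κ)| ≤
      (N⁻¹ * g ε x s) * (N'⁻¹ * g ε t y) * η + ρ * ((1 + |κ|) * (1 + |K s t|)) := by
    intro s hs t ht
    have hw0 : 0 ≤ N⁻¹ * g ε x s := mul_nonneg (inv_nonneg.2 hNp.le) (g_pos _ _ _).le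
    have hw0' : 0 ≤ N'⁻¹ * g ε t y := mul_nonneg (inv_nonneg.2 hNp'.le) (g_pos _ _ _).le
    have hw1 : N⁻¹ * g ε x s ≤ 1 := wt_le_one S hs
    have hw1' : N'⁻¹ * g ε t y ≤ 1 := by
      rw [hN'2, g_comm]; exact wt_le_one T ht
    rw [abs_mul, abs_of_nonneg (mul_nonneg hw0 hw0')]
    have hb : |K s t - κ| ≤ (1 + |κ|) * (1 + |K s t|) := by
      have h3 := abs_sub (K s t) κ
      have h4 := abs_nonneg κ
      have h5 := abs_nonneg (K s t)
      nlinarith [mul_nonneg h4 h5]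
    have hb0 : 0 ≤ (1 + |κ|) * (1 + |K s t|) := by positivity
    by_cases hc : |s - x| < δ
    · by_cases hc' : |t - y| < δ
      · have := mul_le_mul_of_nonneg_left (hK s hs t ht hc hc') (mul_nonneg hw0 hw0')
        have := mul_nonneg hρ0 hb0
        linarith
      · have h3 : N'⁻¹ * g ε t y ≤ ρ := by
          rw [hN'2, g_comm]; exact wt_le hε T hδ ht' h2 (not_lt.1 hc')
        have h4 : (N⁻¹ * g ε x s) * (N'⁻¹ * g ε t y) ≤ ρ := by
          calc _ ≤ 1 * (N'⁻¹ * g ε t y) := mul_le_mul_of_nonneg_right hw1 hw0'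
            _ ≤ ρ := by rw [one_mul]; exact h3
        have h5 := mul_le_mul h4 hb (abs_nonneg _) hρ0
        have h6 := mul_nonneg (mul_nonneg hw0 hw0') hη
        linarith
    · have h3 : N⁻¹ * g ε x s ≤ ρ := wt_le hε S hδ hs' h1 (not_lt.1 hc)
      have h4 : (N⁻¹ * g ε x s) * (N'⁻¹ * g ε t y) ≤ ρ := by
        calc _ ≤ (N⁻¹ * g ε x s) * 1 := mul_le_mul_of_nonneg_left hw1' hw0
          _ ≤ ρ := by rw [mul_one]; exact h3
      have h5 := mul_le_mul h4 hb (abs_nonneg _) hρ0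
      have h6 := mul_nonneg (mul_nonneg hw0 hw0') hη
      linarith
  calc _ ≤ ∑ s ∈ S, ∑ t ∈ T, |(N⁻¹ * g ε x s) * (N'⁻¹ * g ε t y) * (K s t - κ)| :=
        (Finset.abs_sum_le_sum_abs _ _).trans
          (Finset.sum_le_sum fun s _ => Finset.abs_sum_le_sum_abs _ _)
    _ ≤ ∑ s ∈ S, ∑ t ∈ T, ((N⁻¹ * g ε x s) * (N'⁻¹ * g ε t y) * η +
        ρ * ((1 + |κ|) * (1 + |K s t|))) :=
        Finset.sum_le_sum fun s hs => Finset.sum_le_sum fun t ht => hterm s hs t ht
    _ = (∑ s ∈ S, ∑ t ∈ T, (N⁻¹ * g ε x s) * (N'⁻¹ * g ε t y)) * η +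
        ρ * ((1 + |κ|) * ∑ s ∈ S, ∑ t ∈ T, (1 + |K s t|)) := by
        simp only [Finset.sum_mul, Finset.mul_sum]
        rw [← Finset.sum_add_distrib]
        refine Finset.sum_congr rfl fun s _ => ?_
        rw [← Finset.sum_add_distrib]
    _ = _ := by rw [hone, one_mul]

theorem ratio_le {ε : ℝ} (hε : 0 < ε) (S : Finset ℝ) {x σ s' : ℝ} (hs' : s' ∈ S)
    (h1 : 1 ≤ s' - σ) (h2 : 1 ≤ 2 * x - σ - s') :
    (∑ s ∈ S, g ε x s)⁻¹ * g ε x σ ≤ Real.exp (-(1 / ε)) := by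
  have hN : g ε x s' ≤ ∑ s ∈ S, g ε x s :=
    Finset.single_le_sum (f := fun s => g ε x s) (fun s _ => (g_pos _ _ _).le) hs'
  have hpos : 0 < ∑ s ∈ S, g ε x s := lt_of_lt_of_le (g_pos _ _ _) hN
  rw [inv_mul_le_iff₀ hpos]
  calc g ε x σ ≤ g ε x s' * Real.exp (-(1 / ε)) := by
        unfold g
        rw [← Real.exp_add]
        apply Real.exp_le_exp.2
        have e1 : -(x - s') ^ 2 / ε + -(1 / ε) = (-(x - s') ^ 2 - 1) / ε := by ring
        rw [e1]
        apply div_le_div_of_nonneg_right _ hε.le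
        have : 1 ≤ (s' - σ) * (2 * x - σ - s') := by nlinarith
        nlinarith
    _ ≤ _ := mul_le_mul_of_nonneg_right hN (Real.exp_pos _).le

theorem tail_est {ε : ℝ} (hε : 0 < ε) (R : ℝ) (S T : Finset ℝ) {x y s' t' : ℝ} (hs' : s' ∈ S)
    (ht' : t' ∈ T) (h1 : 0 ≤ s' + R) (h2 : 0 ≤ 2 * x + R - s') (h3 : 0 ≤ t' + R)
    (h4 : 0 ≤ 2 * y + R - t') :
    0 ≤ (∑ s ∈ S, g ε x s)⁻¹ * ((∑ t ∈ T, g ε t y)⁻¹ * ∑' k, tl ε R x y k) ∧
    (∑ s ∈ S, g ε x s)⁻¹ * ((∑ t ∈ T, g ε t y)⁻¹ * ∑' k, tl ε R x y k) ≤ Real.exp (-(1 / ε)) := by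
  set N := ∑ s ∈ S, g ε x s with hN
  set N' := ∑ t ∈ T, g ε t y with hN'
  have hNp : 0 < N := Finset.sum_pos (fun s _ => g_pos _ _ _) ⟨s', hs'⟩
  have hNp' : 0 < N' := Finset.sum_pos (fun s _ => g_pos _ _ _) ⟨t', ht'⟩
  have hN'2 : N' = ∑ t ∈ T, g ε y t := Finset.sum_congr rfl fun t _ => g_comm _ _ _
  have hnn : 0 ≤ ∑' k, tl ε R x y k := tsum_nonneg fun k => tl_nonneg _ _ _ _ _
  refine ⟨by positivity, ?_⟩
  have hb : ∀ k, g ε x (sg R k) * g ε (sg R k) y ≤ N * N' * Real.exp (-(1 / ε)) := by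
    intro k
    have hk : (0 : ℝ) ≤ k := Nat.cast_nonneg k
    have h5 := ratio_le hε S (x := x) (σ := sg R k) hs' (by unfold sg; linarith)
      (by unfold sg; linarith)
    have h6 := ratio_le hε T (x := y) (σ := sg R k) ht' (by unfold sg; linarith)
      (by unfold sg; linarith)
    rw [← hN, inv_mul_le_iff₀ hNp] at h5
    rw [← hN'2, inv_mul_le_iff₀ hNp', g_comm] at h6
    have h7 : Real.exp (-(1 / ε)) ≤ 1 := by
      rw [Real.exp_le_one_iff]
      have : 0 ≤ 1 / ε := by positivity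
      linarith
    have h8 : g ε (sg R k) y ≤ N' := by
      calc _ ≤ N' * Real.exp (-(1 / ε)) := h6
        _ ≤ N' * 1 := mul_le_mul_of_nonneg_left h7 hNp'.le
        _ = N' := mul_one _
    calc _ ≤ (N * Real.exp (-(1 / ε))) * N' :=
          mul_le_mul h5 h8 (g_pos _ _ _).le (by positivity)
      _ = _ := by ring
  have hs : ∑' k, tl ε R x y k ≤ N * N' * Real.exp (-(1 / ε)) := by
    have h9 : ∑' k, tl ε R x y k ≤ ∑' k : ℕ, N * N' * Real.exp (-(1 / ε)) * (1 / 2) ^ (k + 1) :=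
      (tl_summable hε R x y).tsum_le_tsum (fun k => tl_le R x y _ k (hb k))
        ((half_sum.summable).mul_left _)
    rw [tsum_mul_left, half_sum.tsum_eq, mul_one] at h9
    exact h9
  rw [inv_mul_le_iff₀ hNp, inv_mul_le_iff₀ hNp']
  calc _ ≤ N * N' * Real.exp (-(1 / ε)) := hs
    _ = _ := by ring

end Pool.Agent.Q161.TPK
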